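import Mathlib
import Pool.Agent.Run7.h481.MC4
import Pool.Agent.Run7.h481.MC6

set_option autoImplicit false

/-!
# Dense point sets which need a superlinear number of monotone paths

The points `(x, y) + ε(x, y) (1, m + 1)` of the `m × m` grid, where the displacements
`ε(x, y) = M ^ (-(x m + y + 1))` decrease extremely fast in the lexicographic order. On every grid line
in the direction `d = (p, q)`, `1 ≤ q < p`, a monotone path covers at most seven of the `(n / (36 p^2))`
segments from the first to the last third of the line, and a path whose direction is not almost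
orthogonal to `d` covers only a bounded number of the long segments of all grid lines in the direction
`d`. So at least a constant times `n / p^2` paths have a direction almost orthogonal to `d`, and the sum
of `1 / p^2` over all `d` diverges.
-/

namespace Pool.Agent.Results.MP_9c8b61_co.SuperlinearCover

open Pool.Agent.R143.MonoPath Finset Filter Topology Run7.h481.MC

theorem exists_primes (C : ℝ) : ∃ S : Finset ℕ, (∀ p ∈ S, p.Prime) ∧ C < ∑ p ∈ S, (1 : ℝ) / p := by
  by_contra h
  push Not at h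
  apply Nat.Primes.not_summable_one_div
  apply summable_of_sum_le (c := C) (fun p => by positivity)
  intro u
  have h1 := h (u.image (fun q : Nat.Primes => (q : ℕ))) (by
    intro p hp
    rw [Finset.mem_image] at hp
    obtain ⟨q, _, rfl⟩ := hp
    exact q.2)
  have h2 : ∑ p ∈ u.image (fun q : Nat.Primes => (q : ℕ)), (1 : ℝ) / p =
      ∑ q ∈ u, (1 : ℝ) / ((q : ℕ) : ℝ) := by
    apply Finset.sum_image
    intro a _ b _ hab
    exact Nat.Primes.coe_nat_injective hab
  exact h2 ▸ h1

/-- the directions -/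
def dirs (S : Finset ℕ) (D : ℕ) : Finset (ℕ × ℕ) :=
  (S ×ˢ range (D + 1)).filter (fun d => 1 ≤ d.2 ∧ d.2 < d.1)

theorem dirs_det {S : Finset ℕ} {D : ℕ} (hS : ∀ p ∈ S, p.Prime) {d d' : ℕ × ℕ}
    (hd : d ∈ dirs S D) (hd' : d' ∈ dirs S D) (hne : d ≠ d') :
    (d.1 : ℤ) * d'.2 - d.2 * d'.1 ≠ 0 := by
  intro h
  simp only [dirs, mem_filter, mem_product, mem_range] at hd hd'
  have h1 : d.1 * d'.2 = d.2 * d'.1 := by
    have : (d.1 : ℤ) * d'.2 = d.2 * d'.1 := by linarith
    exact_mod_cast this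
  have hp := hS _ hd.1.1
  have hp' := hS _ hd'.1.1
  have h2 : d.1 ∣ d.2 * d'.1 := ⟨d'.2, h1.symm⟩
  rcases (Nat.Prime.dvd_mul hp).mp h2 with h3 | h3
  · have := Nat.le_of_dvd (by omega) h3
    omega
  · have h4 : d.1 = d'.1 := (Nat.prime_dvd_prime_iff_eq hp hp').mp h3
    apply hne
    have h5 : d.1 * d'.2 = d.1 * d.2 := by rw [h1, ← h4]; ring
    have h6 := Nat.eq_of_mul_eq_mul_left (by omega : 0 < d.1) h5
    exact Prod.ext h4 h6.symm

theorem sum_dirs {S : Finset ℕ} {D : ℕ} (hD : ∀ p ∈ S, p ≤ D) (f : ℕ → ℝ) :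
    ∑ d ∈ dirs S D, f d.1 = ∑ p ∈ S, ((p - 1 : ℕ) : ℝ) * f p := by
  rw [dirs, sum_filter, sum_product]
  apply sum_congr rfl
  intro p hp
  simp only
  rw [← sum_filter, sum_const, nsmul_eq_mul]
  congr 2
  have h1 : (range (D + 1)).filter (fun q => 1 ≤ q ∧ q < p) = Ico 1 p := by
    ext q
    simp only [mem_filter, mem_range, mem_Ico]
    have := hD p hp
    omega
  rw [h1, Nat.card_Ico]

theorem exists_set (n : ℕ) : ∃ T : Finset (ℕ × ℕ),
    range (Nat.sqrt n) ×ˢ range (Nat.sqrt n) ⊆ T ∧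
    T ⊆ range (Nat.sqrt n + 1) ×ˢ range (Nat.sqrt n + 1) ∧ T.card = n := by
  apply exists_subsuperset_card_eq
  · exact product_subset_product (range_subset_range.mpr (by omega)) (range_subset_range.mpr (by omega))
  · rw [card_product, card_range]
    exact Nat.sqrt_le n
  · rw [card_product, card_range]
    exact (Nat.lt_succ_sqrt n).le

/-- **Main theorem.** There are a constant `α` and `α`-dense `n`-point sets `A n` in general position
(for all `n`) such that `mc (A n) / n → ∞`. -/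
theorem result : ∃ (α : ℝ) (A : ℕ → Finset Plane), 0 < α ∧
    (∀ n, (A n).card = n ∧ GeneralPosition (A n) ∧ IsDense α (A n)) ∧
    Tendsto (fun n => (mc (A n) : ℝ) / n) atTop atTop := by
  classical
  choose T hT1 hT2 hT3 using exists_set
  have hmem : ∀ n, ∀ z ∈ T n, z.1 < Nat.sqrt n + 1 ∧ z.2 < Nat.sqrt n + 1 := by
    intro n z hz
    have := hT2 n hz
    rw [mem_product, mem_range, mem_range] at this
    exact this
  refine ⟨8, fun n => (T n).image (P (Nat.sqrt n + 1)), by norm_num, ?_, ?_⟩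
  · intro n
    have hcard : ((T n).image (P (Nat.sqrt n + 1))).card = n := by
      rw [card_image_of_injective _ (P_inj _), hT3]
    refine ⟨hcard, ?_, ?_⟩
    · intro a ha b hb c hc hab hbc hac
      rw [mem_image] at ha hb hc
      obtain ⟨x, hx, rfl⟩ := ha
      obtain ⟨y, hy, rfl⟩ := hb
      obtain ⟨z, hz, rfl⟩ := hc
      exact gen_pos _ x y z (hmem n x hx).1 (hmem n x hx).2 (hmem n y hy).1 (hmem n y hy).2
        (hmem n z hz).1 (hmem n z hz).2 (fun h => hab (by rw [h])) (fun h => hbc (by rw [h]))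
        (fun h => hac (by rw [h]))
    · intro a ha b hb c hc d hd hcd
      rw [hcard]
      rw [mem_image] at ha hb hc hd
      obtain ⟨x, hx, rfl⟩ := ha
      obtain ⟨y, hy, rfl⟩ := hb
      obtain ⟨z, hz, rfl⟩ := hc
      obtain ⟨w, hw, rfl⟩ := hd
      have h1 := near (Nat.sqrt n + 1) x y (hmem n x hx).1 (hmem n x hx).2 (hmem n y hy).1
        (hmem n y hy).2
      have h2 := far (Nat.sqrt n + 1) z w (fun h => hcd (by rw [h]))
      have hn : 1 ≤ n := by
        rw [← hT3 n]
        exact card_pos.mpr ⟨x, hx⟩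
      have h3 : (Nat.sqrt n : ℝ) ≤ √(n : ℝ) := Real.nat_sqrt_le_real_sqrt
      have h4 : (1 : ℝ) ≤ √(n : ℝ) := by
        rw [Real.one_le_sqrt]
        exact_mod_cast hn
      push_cast at h1
      nlinarith
  · rw [tendsto_atTop]
    intro B
    obtain ⟨S, hS, hsum⟩ := exists_primes (9216 * |B|)
    set D := S.sup id with hD
    have hSD : ∀ p ∈ S, p ≤ D := fun p hp => le_sup (f := id) hp
    set 𝒟 := dirs S D with h𝒟
    obtain ⟨N, hN⟩ : ∃ N : ℕ, 3 * (384 * (D : ℝ) ^ 2 + 2) * 𝒟.card ≤ N := exists_nat_ge _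
    have hev : ∀ᶠ n : ℕ in atTop, (max N (12 * D) + 1) ^ 2 ≤ n := eventually_ge_atTop _
    filter_upwards [hev] with n hn
    set k := Nat.sqrt n with hk
    have hk1 : max N (12 * D) + 1 ≤ k := by
      rw [hk, Nat.le_sqrt']
      exact hn
    have hkN : N ≤ k := by have := le_max_left N (12 * D); omega
    have hkD : 12 * D ≤ k := by have := le_max_right N (12 * D); omega
    have hk0 : 1 ≤ k := by omega
    have hkr : (0 : ℝ) < k := by exact_mod_cast hk0
    have hcov := hasCover_mc ((T n).image (P (k + 1)))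
    set r := mc ((T n).image (P (k + 1))) with hr
    have hlow := lower (k + 1) k r D 𝒟 (T n) (by omega) (by omega) hkD (by
      intro d hd
      rw [h𝒟, dirs, mem_filter, mem_product] at hd
      exact ⟨hd.2.1, hd.2.2, hSD _ hd.1.1⟩) (fun d hd d' hd' hne => dirs_det hS hd hd' hne)
      (hT1 n) hcov
    have h1 : 3 * (384 * (D : ℝ) ^ 2 + 2) * 𝒟.card / k ≤ 1 := by
      rw [div_le_one hkr]
      have : (N : ℝ) ≤ k := by exact_mod_cast hkN
      linarith
    have hr0 : (0 : ℝ) ≤ r := Nat.cast_nonneg _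
    have h2 : ∑ d ∈ 𝒟, ((k / (6 * d.1) : ℕ) : ℝ) ^ 2 ≤ 8 * r := by
      refine hlow.trans ?_
      nlinarith
    rw [h𝒟, sum_dirs hSD (fun p => ((k / (6 * p) : ℕ) : ℝ) ^ 2)] at h2
    have h3 : ∀ p ∈ S, (k : ℝ) ^ 2 / 288 * ((1 : ℝ) / p) ≤
        ((p - 1 : ℕ) : ℝ) * ((k / (6 * p) : ℕ) : ℝ) ^ 2 := by
      intro p hp
      have hp2 := (hS p hp).two_le
      have hpD := hSD p hp
      have hp0 : (0 : ℝ) < p := by
        have : 0 < p := by omega
        exact_mod_cast this
      set a := k / (6 * p) with ha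
      have ha1 : 1 ≤ a := by
        rw [ha, Nat.le_div_iff_mul_le (by omega)]
        have : 6 * p ≤ 6 * D := Nat.mul_le_mul_left _ hpD
        omega
      have ha2 : k ≤ 12 * p * a := by
        have q1 : k < 6 * p * (a + 1) := by
          rw [ha]
          exact Nat.lt_mul_div_succ k (by omega)
        have q2 : 6 * p * (a + 1) ≤ 6 * p * (2 * a) := Nat.mul_le_mul_left _ (by omega)
        calc k ≤ 6 * p * (2 * a) := by omega
          _ = 12 * p * a := by ring
      have ha3 : (k : ℝ) ≤ 12 * p * a := by exact_mod_cast ha2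
      have ha4 : (k : ℝ) ^ 2 ≤ (12 * p * a) ^ 2 := by
        apply pow_le_pow_left₀ hkr.le ha3
      have hp3 : (p : ℝ) ≤ 2 * ((p - 1 : ℕ) : ℝ) := by
        have : p ≤ 2 * (p - 1) := by omega
        exact_mod_cast this
      calc (k : ℝ) ^ 2 / 288 * ((1 : ℝ) / p) ≤ (12 * p * a) ^ 2 / 288 * ((1 : ℝ) / p) := by gcongr
        _ = (p / 2) * (a : ℝ) ^ 2 := by field_simp; ring
        _ ≤ ((p - 1 : ℕ) : ℝ) * (a : ℝ) ^ 2 := by
          apply mul_le_mul_of_nonneg_right _ (by positivity)
          linarith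
    have h4 := sum_le_sum h3
    rw [← mul_sum] at h4
    have h5 : (k : ℝ) ^ 2 / 288 * (9216 * |B|) ≤ 8 * r := by
      have : (k : ℝ) ^ 2 / 288 * (9216 * |B|) ≤ (k : ℝ) ^ 2 / 288 * ∑ p ∈ S, (1 : ℝ) / p :=
        mul_le_mul_of_nonneg_left hsum.le (by positivity)
      linarith
    have hn1 : (n : ℝ) ≤ 4 * (k : ℝ) ^ 2 := by
      have q1 : n < (k + 1) * (k + 1) := Nat.lt_succ_sqrt n
      have q2 : n ≤ 4 * k ^ 2 := by nlinarith
      exact_mod_cast q2
    have hn0 : (0 : ℝ) < n := by
      have : 0 < n := by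
        have : 1 ≤ (max N (12 * D) + 1) ^ 2 := Nat.one_le_pow _ _ (by omega)
        omega
      exact_mod_cast this
    rw [le_div_iff₀ hn0]
    have hB : B ≤ |B| := le_abs_self B
    have hB0 : 0 ≤ |B| := abs_nonneg B
    calc B * n ≤ |B| * n := mul_le_mul_of_nonneg_right hB hn0.le
      _ ≤ |B| * (4 * (k : ℝ) ^ 2) := mul_le_mul_of_nonneg_left hn1 hB0
      _ = (k : ℝ) ^ 2 / 288 * (9216 * |B|) / 8 := by ring
      _ ≤ r := by linarith

end Pool.Agent.Results.MP_9c8b61_co.SuperlinearCover
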